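import Pool.Agent.W584.RG.TI

/-! Project RG: the minimal polynomial of the entries and the size of the primes -/

set_option autoImplicit false

namespace Pool.Agent.W989.RG

open Finset Polynomial

theorem minpoly_root (m q : ℕ) (hm : 1 ≤ m) (hq : q.Prime) :
    minpoly ℚ ((q : ℝ) ^ (1 / (m : ℝ))) = X ^ m - C (q : ℚ) := by
  symm
  refine minpoly.unique' ℚ _ (monic_X_pow_sub_C _ (by omega)) ?_ ?_
  · have h1 : ((q : ℝ) ^ (1 / (m : ℝ))) ^ m = q := by
      rw [one_div, Real.rpow_inv_natCast_pow (Nat.cast_nonneg q) (by omega)]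
    rw [map_sub, map_pow, aeval_X, h1, aeval_C]
    simp
  · intro g hg
    by_cases h0 : aeval ((q : ℝ) ^ (1 / (m : ℝ))) g = 0
    · left
      rw [degree_X_pow_sub_C (by omega)] at hg
      have h2 : ∑ e : Fin 1 → Fin m, ((fun e : Fin 1 → Fin m => g.coeff (e 0)) e : ℝ) *
          ∏ w, (((fun _ : Fin 1 => q) w : ℝ) ^ (1 / (m : ℝ))) ^ ((e w : ℕ)) = 0 := by
        rw [← h0, aeval_eq_sum_range' (n := m), ← Fin.sum_univ_eq_sum_range
          (fun i => g.coeff i • ((q : ℝ) ^ (1 / (m : ℝ))) ^ i)]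
        · refine Fintype.sum_equiv (Equiv.funUnique (Fin 1) (Fin m)) _ _ ?_
          intro e
          simp [Algebra.smul_def]
        · by_cases hg0 : g = 0
          · rw [hg0]; simp; omega
          · exact (natDegree_lt_iff_degree_lt hg0).2 hg
      have h3 := Pool.Agent.W584.RG.t_TI (Fin 1) m (fun _ => q) (fun e => g.coeff (e 0))
        (fun _ => hq) (fun _ _ _ => Subsingleton.elim _ _) h2
      ext i
      rw [coeff_zero]
      by_cases hi : i < m
      · exact h3 (fun _ => ⟨i, hi⟩)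
      · exact coeff_eq_zero_of_degree_lt (lt_of_lt_of_le hg (by exact_mod_cast (by omega : m ≤ i)))
    · right
      exact h0

theorem nth_prime_le (k : ℕ) : Nat.nth Nat.Prime k ≤ 64 * (k + 1) ^ 2 := by
  set t : ℝ := 8 * ((k : ℝ) + 1) with ht
  set N : ℕ := 64 * (k + 1) ^ 2 with hN
  have hNt : (N : ℝ) = t ^ 2 := by
    rw [hN, ht]
    push_cast
    ring
  have ht8 : 8 ≤ t := by
    rw [ht]
    have : (0 : ℝ) ≤ k := Nat.cast_nonneg k
    linarith
  have h1 := Chebyshev.pi_ge N
  rw [hNt] at h1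
  have hlogt : 0 < Real.log t := Real.log_pos (by linarith)
  have hlog2 : Real.log (t ^ 2) = 2 * Real.log t := by
    rw [Real.log_pow]; norm_num
  rw [hlog2] at h1
  have h2 : Real.log (t ^ 2 + 1) ≤ 2 * t := by
    have h3 : t ^ 2 + 1 ≤ (1 + t) ^ 2 := by nlinarith
    calc Real.log (t ^ 2 + 1) ≤ Real.log ((1 + t) ^ 2) := Real.log_le_log (by positivity) h3
      _ = 2 * Real.log (1 + t) := by rw [Real.log_pow]; norm_num
      _ ≤ 2 * t := by
        have := Real.log_le_sub_one_of_pos (by linarith : 0 < 1 + t)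
        linarith
  have h4 : Real.log t ≤ t := by
    have := Real.log_le_sub_one_of_pos (by linarith : 0 < t)
    linarith
  have h5 : 0.69 < Real.log 2 := by
    have := Real.log_two_gt_d9
    linarith
  have h6 : ((k : ℝ) + 1) ≤ (t ^ 2 * Real.log 2 - Real.log (t ^ 2 + 1)) / (2 * Real.log t) := by
    rw [le_div_iff₀ (by linarith)]
    have h7 : ((k : ℝ) + 1) = t / 8 := by rw [ht]; ring
    rw [h7]
    nlinarith
  have h8 : ((k : ℝ) + 1) ≤ (Nat.primeCounting N : ℝ) := le_trans h6 h1
  have h9 : k + 1 ≤ Nat.primeCounting N := by exact_mod_cast h8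
  have h10 : Nat.nth Nat.Prime k < N + 1 := by
    apply Nat.nth_lt_of_lt_count
    have : Nat.count Nat.Prime (N + 1) = Nat.primeCounting N := rfl
    omega
  omega

end Pool.Agent.W989.RG
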