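import Pool.Agent.W989.RG.Stm

/-! Project RG, part P4: the dimension argument -/

set_option autoImplicit false

namespace Pool.Agent.W989.RG

open Finset MvPolynomial

/-- more polynomials of small degree than monomials are linearly dependent -/
theorem exists_dep {V E : Type} [Fintype V] [Fintype E] [DecidableEq V] (D : ℕ)
    (F : E → MvPolynomial V ℚ) (hF : ∀ e, (F e).totalDegree ≤ D)
    (hcard : (D + 1) ^ (Fintype.card V) < Fintype.card E) :
    ∃ c : E → ℚ, c ≠ 0 ∧ ∑ e, C (c e) * F e = 0 := by
  classical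
  let mon : (V → Fin (D + 1)) → (V →₀ ℕ) := fun t => Finsupp.equivFunOnFinite.symm (fun v => (t v : ℕ))
  let L : (E → ℚ) →ₗ[ℚ] ((V → Fin (D + 1)) → ℚ) :=
    { toFun := fun c t => ∑ e, c e * (F e).coeff (mon t)
      map_add' := by
        intro a b
        funext t
        simp [add_mul, Finset.sum_add_distrib]
      map_smul' := by
        intro a b
        funext t
        simp [Finset.mul_sum, mul_assoc] }
  have hlt : Module.finrank ℚ ((V → Fin (D + 1)) → ℚ) < Module.finrank ℚ (E → ℚ) := by
    rw [Module.finrank_fintype_fun_eq_card, Module.finrank_fintype_fun_eq_card]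
    simpa using hcard
  have hker := LinearMap.ker_ne_bot_of_finrank_lt (f := L) hlt
  obtain ⟨c, hc, hc0⟩ := Submodule.exists_mem_ne_zero_of_ne_bot hker
  refine ⟨c, hc0, ?_⟩
  ext t
  rw [coeff_sum, coeff_zero]
  simp only [coeff_C_mul]
  by_cases ht : ∀ v, t v ≤ D
  · have h1 := congrFun (LinearMap.mem_ker.1 hc) (fun v => ⟨t v, Nat.lt_succ_of_le (ht v)⟩)
    have h2 : mon (fun v => ⟨t v, Nat.lt_succ_of_le (ht v)⟩) = t := by
      ext v
      simp [mon]
    have h3 : (∑ e, c e * (F e).coeff (mon (fun v => ⟨t v, Nat.lt_succ_of_le (ht v)⟩))) = 0 := h1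
    rw [h2] at h3
    exact h3
  · push Not at ht
    obtain ⟨v, hv⟩ := ht
    refine Finset.sum_eq_zero (fun e _ => ?_)
    rw [coeff_eq_zero_of_totalDegree_lt, mul_zero]
    refine lt_of_le_of_lt (hF e) (lt_of_lt_of_le hv ?_)
    have hvs : v ∈ t.support := by
      rw [Finsupp.mem_support_iff]
      omega
    exact Finset.single_le_sum (f := fun i => t i) (fun i _ => Nat.zero_le _) hvs

end Pool.Agent.W989.RG
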