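import Pool.Agent.W989.RG.Core

/-! Project RG, part P4: the dimension argument -/

set_option autoImplicit false

namespace Pool.Agent.W989.RG

open Finset MvPolynomial

theorem totalDegree_det_le {V : Type} {r : ℕ} (u : Matrix (Fin r) (Fin r) (MvPolynomial V ℚ))
    (hu : ∀ k l, (u k l).totalDegree ≤ 1) : u.det.totalDegree ≤ r := by
  rw [Matrix.det_apply]
  refine totalDegree_finsetSum_le (fun σ _ => ?_)
  refine le_trans (totalDegree_smul_le _ _) ?_
  refine le_trans (totalDegree_finsetProd _ _) ?_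
  calc ∑ i : Fin r, (u (σ i) i).totalDegree ≤ ∑ _i : Fin r, 1 := Finset.sum_le_sum (fun i _ => hu _ _)
    _ = r := by simp

theorem totalDegree_adj_le {V : Type} {r : ℕ} (u : Matrix (Fin r) (Fin r) (MvPolynomial V ℚ))
    (hu : ∀ k l, (u k l).totalDegree ≤ 1) (k l : Fin r) :
    (u.adjugate k l).totalDegree ≤ r - 1 := by
  obtain ⟨s, rfl⟩ : ∃ s, r = s + 1 := ⟨r - 1, by have := k.2; omega⟩
  rw [Matrix.adjugate_fin_succ_eq_det_submatrix]
  refine le_trans (totalDegree_mul _ _) ?_
  have h1 : ((-1 : MvPolynomial V ℚ) ^ ((l : ℕ) + (k : ℕ))).totalDegree ≤ 0 := by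
    refine le_trans (totalDegree_pow _ _) ?_
    simp
  have h2 : (Matrix.det (u.submatrix l.succAbove k.succAbove)).totalDegree ≤ s :=
    totalDegree_det_le _ (fun a b => hu _ _)
  simp only [Nat.add_sub_cancel]
  omega

theorem core (hTI : S_TI) {K : Type} [Field K] (φ : ℝ →+* K) {n m M r : ℕ}
    (Ω T : Finset (Fin n × Fin n)) (pr : Fin n × Fin n → ℕ) (hM : M ≤ m)
    (hpr : ∀ p ∈ Ω, (pr p).Prime) (hinj : Set.InjOn pr Ω)
    (R : Matrix (Fin n) (Fin n) K)
    (hR : ∀ p ∈ Ω, p ∉ T → R p.1 p.2 = φ ((pr p : ℝ) ^ (1 / (m : ℝ))))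
    (hR0 : ∀ p, p ∉ Ω → p ∉ T → R p.1 p.2 = 0)
    (I J : Fin r → Fin n) (hdet : (R.submatrix I J).det ≠ 0)
    (hcur : ∀ i j, R i j * (R.submatrix I J).det =
      ∑ k, ∑ l, R i (J k) * (R.submatrix I J).adjugate k l * R (I l) j) :
    M ^ (Ω \ T).card ≤ ((r + 1) * ((M - 1) * (Ω \ T).card) + 1) ^
      ((Ω ∪ T).filter (fun p => p.1 ∈ Set.range I ∨ p.2 ∈ Set.range J)).card := by
  classical
  by_contra hcon
  push Not at hcon
  set W : Finset (Fin n × Fin n) := Ω \ T with hW
  set V : Finset (Fin n × Fin n) :=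
    (Ω ∪ T).filter (fun p => p.1 ∈ Set.range I ∨ p.2 ∈ Set.range J) with hV
  set N : ℕ := (M - 1) * W.card with hN
  -- the variables
  let x : Fin n → Fin n → MvPolynomial V ℚ := fun i j =>
    if h : (i, j) ∈ V then X ⟨(i, j), h⟩ else 0
  have hxdeg : ∀ i j, (x i j).totalDegree ≤ 1 := by
    intro i j
    simp only [x]
    split_ifs with h
    · rw [totalDegree_X]
    · simp
  let ev : MvPolynomial V ℚ →+* K :=
    eval₂Hom (φ.comp (algebraMap ℚ ℝ)) (fun v => R v.1.1 v.1.2)
  have hev : ∀ i j, (i ∈ Set.range I ∨ j ∈ Set.range J) → ev (x i j) = R i j := by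
    intro i j hij
    simp only [x]
    split_ifs with h
    · simp [ev]
    · rw [map_zero]
      have h1 : (i, j) ∉ Ω ∪ T := by
        intro h2
        exact h (Finset.mem_filter.2 ⟨h2, hij⟩)
      rw [Finset.mem_union, not_or] at h1
      exact (hR0 (i, j) h1.1 h1.2).symm
  let u : Matrix (Fin r) (Fin r) (MvPolynomial V ℚ) := Matrix.of fun k l => x (I k) (J l)
  have hudeg : ∀ k l, (u k l).totalDegree ≤ 1 := fun k l => hxdeg _ _
  have hevu : ev.mapMatrix u = R.submatrix I J := by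
    ext k l
    simp only [RingHom.mapMatrix_apply, Matrix.map_apply, Matrix.submatrix_apply, u, Matrix.of_apply]
    exact hev _ _ (Or.inl ⟨k, rfl⟩)
  have hevdet : ev u.det = (R.submatrix I J).det := by
    rw [RingHom.map_det, hevu]
  have hevadj : ∀ k l, ev (u.adjugate k l) = (R.submatrix I J).adjugate k l := by
    intro k l
    rw [← hevu, ← RingHom.map_adjugate]
    rfl
  let f : Fin n × Fin n → MvPolynomial V ℚ := fun p =>
    ∑ k, ∑ l, x p.1 (J k) * u.adjugate k l * x (I l) p.2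
  have hfdeg : ∀ p, (f p).totalDegree ≤ r + 1 := by
    intro p
    refine totalDegree_finsetSum_le (fun k _ => totalDegree_finsetSum_le (fun l _ => ?_))
    refine le_trans (totalDegree_mul _ _) ?_
    have h1 := totalDegree_mul (x p.1 (J k)) (u.adjugate k l)
    have h2 := hxdeg p.1 (J k)
    have h3 := hxdeg (I l) p.2
    have h4 := totalDegree_adj_le u hudeg k l
    have h5 : 0 < r := lt_of_le_of_lt (Nat.zero_le _) k.2
    omega
  have hevf : ∀ p, ev (f p) = R p.1 p.2 * (R.submatrix I J).det := by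
    intro p
    rw [hcur p.1 p.2]
    simp only [f, map_sum, map_mul]
    refine Finset.sum_congr rfl (fun k _ => Finset.sum_congr rfl (fun l _ => ?_))
    rw [hev _ _ (Or.inr ⟨k, rfl⟩), hev _ _ (Or.inl ⟨l, rfl⟩), hevadj]
  -- the products
  let F : (W → Fin M) → MvPolynomial V ℚ := fun e =>
    (∏ w : W, f w.1 ^ (e w : ℕ)) * u.det ^ (N - ∑ w : W, (e w : ℕ))
  have hesum : ∀ e : W → Fin M, ∑ w : W, (e w : ℕ) ≤ N := by
    intro e
    calc ∑ w : W, (e w : ℕ) ≤ ∑ _w : W, (M - 1) :=
          Finset.sum_le_sum (fun w _ => by have := (e w).2; omega)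
      _ = N := by
          rw [Finset.sum_const, Finset.card_univ, smul_eq_mul, Fintype.card_coe, hN, mul_comm]
  have hFdeg : ∀ e, (F e).totalDegree ≤ (r + 1) * N := by
    intro e
    refine le_trans (totalDegree_mul _ _) ?_
    have h1 : (∏ w : W, f w.1 ^ (e w : ℕ)).totalDegree ≤ (r + 1) * ∑ w : W, (e w : ℕ) := by
      refine le_trans (totalDegree_finsetProd _ _) ?_
      rw [Finset.mul_sum]
      refine Finset.sum_le_sum (fun w _ => ?_)
      refine le_trans (totalDegree_pow _ _) ?_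
      rw [mul_comm]
      exact Nat.mul_le_mul_right _ (hfdeg _)
    have h2 : (u.det ^ (N - ∑ w : W, (e w : ℕ))).totalDegree ≤
        (r + 1) * (N - ∑ w : W, (e w : ℕ)) := by
      refine le_trans (totalDegree_pow _ _) ?_
      rw [mul_comm]
      refine Nat.mul_le_mul_right _ ?_
      have := totalDegree_det_le u hudeg
      omega
    calc _ ≤ (r + 1) * ∑ w : W, (e w : ℕ) + (r + 1) * (N - ∑ w : W, (e w : ℕ)) :=
          Nat.add_le_add h1 h2
      _ = (r + 1) * N := by
          rw [← Nat.mul_add, Nat.add_sub_cancel' (hesum e)]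
  have hcard : ((r + 1) * N + 1) ^ Fintype.card V < Fintype.card (W → Fin M) := by
    rw [Fintype.card_fun, Fintype.card_fin, Fintype.card_coe, Fintype.card_coe]
    exact hcon
  obtain ⟨c, hc0, hc⟩ := exists_dep ((r + 1) * N) F hFdeg hcard
  have hevF : ∀ e, ev (F e) = (∏ w : W, (R w.1.1 w.1.2) ^ (e w : ℕ)) *
      (R.submatrix I J).det ^ N := by
    intro e
    simp only [F, map_mul, map_prod, map_pow, hevf, hevdet, mul_pow]
    rw [Finset.prod_mul_distrib, Finset.prod_pow_eq_pow_sum, mul_assoc, ← pow_add,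
      Nat.add_sub_cancel' (hesum e)]
  have h1 := congrArg ev hc
  rw [map_zero, map_sum] at h1
  have h2 : (∑ e : W → Fin M, φ ((c e : ℝ) * ∏ w : W, ((pr w.1 : ℝ) ^ (1 / (m : ℝ))) ^ (e w : ℕ))) *
      (R.submatrix I J).det ^ N = 0 := by
    rw [← h1, Finset.sum_mul]
    refine Finset.sum_congr rfl (fun e _ => ?_)
    rw [map_mul ev, hevF]
    have h3 : ev (C (c e)) = φ (c e : ℝ) := by
      simp [ev]
    rw [h3, map_mul φ, map_prod φ, ← mul_assoc]
    congr 2
    refine Finset.prod_congr rfl (fun w _ => ?_)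
    rw [map_pow]
    congr 1
    have hw := Finset.mem_sdiff.1 w.2
    exact (hR w.1 hw.1 hw.2).symm
  rw [← map_sum φ] at h2
  have h4 : (∑ e : W → Fin M, (c e : ℝ) * ∏ w : W, ((pr w.1 : ℝ) ^ (1 / (m : ℝ))) ^ (e w : ℕ)) = 0 := by
    have h5 := (mul_eq_zero.1 h2).resolve_right (pow_ne_zero _ hdet)
    rwa [map_eq_zero] at h5
  -- extension of the exponents
  let ι : (W → Fin M) → (W → Fin m) := fun e w => Fin.castLE hM (e w)
  have hι : Function.Injective ι := by
    intro e e' h
    funext w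
    have := congrFun h w
    exact Fin.castLE_injective hM this
  have h6 := hTI W m (fun w => pr w.1) (Function.extend ι c 0)
    (fun w => hpr w.1 (Finset.mem_sdiff.1 w.2).1)
    (fun w w' h => Subtype.ext (hinj (Finset.mem_sdiff.1 w.2).1 (Finset.mem_sdiff.1 w'.2).1 h))
    (by
      rw [← h4]
      symm
      refine Fintype.sum_of_injective ι hι _ _ ?_ ?_
      · intro e he
        rw [Function.extend_apply' _ _ _ (by simpa using he)]
        simp
      · intro e
        rw [hι.extend_apply]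
        rfl)
  apply hc0
  funext e
  have h7 := h6 (ι e)
  rw [hι.extend_apply] at h7
  exact h7

end Pool.Agent.W989.RG
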