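import Pool.Agent.W989.RG.Core2

/-! Project RG, part P5: the main theorem for every support -/

set_option autoImplicit false

namespace Pool.Agent.W989.RG

open Finset

theorem main (hTI : S_TI) (hCUR : S_CUR) {K : Type} [Field K] (φ : ℝ →+* K)
    {n m r s v : ℕ}
    (Ω : Finset (Fin n × Fin n)) (pr : Fin n × Fin n → ℕ)
    (hpr : ∀ p ∈ Ω, (pr p).Prime) (hinj : Set.InjOn pr Ω)
    (hv : ∀ I J : Finset (Fin n), I.card ≤ r → J.card ≤ r →
      (Ω.filter (fun p => p.1 ∈ I ∨ p.2 ∈ J)).card ≤ v)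
    (hpar : (3 * Real.log n + Real.log m) * ((v : ℝ) + s) < Real.log m * Ω.card)
    (A R S : Matrix (Fin n) (Fin n) K)
    (hA : ∀ p ∈ Ω, A p.1 p.2 = φ ((pr p : ℝ) ^ (1 / (m : ℝ))))
    (hA0 : ∀ p, p ∉ Ω → A p.1 p.2 = 0)
    (hRS : A = R + S) (hr : R.rank ≤ r)
    (T : Finset (Fin n × Fin n)) (hT : ∀ p, p ∉ T → S p.1 p.2 = 0) (hs : T.card ≤ s) : False := by
  classical
  obtain ⟨I, J, hI, hJ, hdet, hcur⟩ := hCUR K n R
  have hRA : ∀ p, p ∉ T → R p.1 p.2 = A p.1 p.2 := by
    intro p hp
    rw [hRS, Matrix.add_apply, hT p hp, add_zero]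
  have h1 := core hTI φ Ω T pr (le_refl m) hpr hinj R (fun p hp hpT => by rw [hRA p hpT, hA p hp])
    (fun p hp hpT => by rw [hRA p hpT, hA0 p hp]) I J hdet hcur
  have hlogn : 0 ≤ Real.log n := Real.log_natCast_nonneg n
  have hlogm : 0 ≤ Real.log m := Real.log_natCast_nonneg m
  have hΩpos : 0 < Real.log m * Ω.card := by
    refine lt_of_le_of_lt ?_ hpar
    positivity
  have hm2 : 2 ≤ m := by
    by_contra hcon
    have : m = 0 ∨ m = 1 := by omega
    rcases this with h | h
    · rw [h] at hΩpos; simp at hΩpos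
    · rw [h] at hΩpos; simp at hΩpos
  have hn1 : 1 ≤ n := by
    by_contra hcon
    have h0 : n = 0 := by omega
    subst h0
    have : Ω = ∅ := Finset.eq_empty_of_isEmpty Ω
    rw [this] at hΩpos
    simp at hΩpos
  -- the two counts
  have hVc : ((Ω ∪ T).filter (fun p => p.1 ∈ Set.range I ∨ p.2 ∈ Set.range J)).card ≤
      v + (T \ Ω).card := by
    have hsub : (Ω ∪ T).filter (fun p => p.1 ∈ Set.range I ∨ p.2 ∈ Set.range J) ⊆
        Ω.filter (fun p => p.1 ∈ univ.image I ∨ p.2 ∈ univ.image J) ∪ (T \ Ω) := by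
      intro p hp
      rw [Finset.mem_filter, Finset.mem_union] at hp
      rw [Finset.mem_union, Finset.mem_filter, Finset.mem_sdiff]
      by_cases hΩ : p ∈ Ω
      · left
        refine ⟨hΩ, ?_⟩
        rcases hp.2 with ⟨k, hk⟩ | ⟨k, hk⟩
        · left
          exact Finset.mem_image.2 ⟨k, Finset.mem_univ _, hk⟩
        · right
          exact Finset.mem_image.2 ⟨k, Finset.mem_univ _, hk⟩
      · right
        exact ⟨hp.1.resolve_left hΩ, hΩ⟩
    refine le_trans (Finset.card_le_card hsub) (le_trans (Finset.card_union_le _ _) ?_)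
    refine Nat.add_le_add_right (hv _ _ ?_ ?_) _
    · refine le_trans Finset.card_image_le ?_
      rw [Finset.card_univ, Fintype.card_fin]
      exact hr
    · refine le_trans Finset.card_image_le ?_
      rw [Finset.card_univ, Fintype.card_fin]
      exact hr
  have hWc : (Ω \ T).card + (Ω ∩ T).card = Ω.card := Finset.card_sdiff_add_card_inter Ω T
  have hTc : (T \ Ω).card + (T ∩ Ω).card = T.card := Finset.card_sdiff_add_card_inter T Ω
  rw [Finset.inter_comm T Ω] at hTc
  -- rank < n
  have hrn : R.rank + 1 ≤ n := by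
    by_contra hcon
    have h2 : R.rank ≤ n := by
      have := Matrix.rank_le_width R
      simpa using this
    have h3 : R.rank = n := by omega
    have h4 : univ.image I = univ := by
      rw [← Finset.card_eq_iff_eq_univ, Finset.card_image_of_injective _ hI, Finset.card_univ,
        Fintype.card_fin, Fintype.card_fin, h3]
    have h5 := hv (univ.image I) ∅ (by
      refine le_trans Finset.card_image_le ?_
      rw [Finset.card_univ, Fintype.card_fin]
      exact hr) (by simp)
    rw [h4] at h5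
    simp only [Finset.mem_univ, true_or, Finset.filter_true] at h5
    have h6 : (Ω.card : ℝ) ≤ (v : ℝ) + s := by
      have : (Ω.card : ℝ) ≤ v := by exact_mod_cast h5
      have : (0 : ℝ) ≤ s := Nat.cast_nonneg s
      linarith
    have h7 : Real.log m * Ω.card ≤ (3 * Real.log n + Real.log m) * ((v : ℝ) + s) := by
      refine mul_le_mul (by linarith) h6 (Nat.cast_nonneg _) (by positivity)
    linarith
  have hΩn : Ω.card ≤ n * n := by
    refine le_trans (Finset.card_le_univ _) ?_
    simp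
  have hWn : (Ω \ T).card ≤ n * n := by omega
  have hD : (R.rank + 1) * ((m - 1) * (Ω \ T).card) + 1 ≤ n ^ 3 * m := by
    obtain ⟨q, hq⟩ : ∃ q, m = q + 1 := ⟨m - 1, by omega⟩
    rw [hq, Nat.add_sub_cancel]
    calc (R.rank + 1) * (q * (Ω \ T).card) + 1 ≤ n * (q * (n * n)) + 1 := by
          gcongr
      _ ≤ n * (q * (n * n)) + n ^ 3 := by
          have : 1 ≤ n ^ 3 := Nat.one_le_pow _ _ (by omega)
          omega
      _ = n ^ 3 * (q + 1) := by ring
  have h7 : m ^ (Ω \ T).card ≤ (n ^ 3 * m) ^ (v + (T \ Ω).card) := by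
    calc m ^ (Ω \ T).card ≤ _ := h1
      _ ≤ (n ^ 3 * m) ^ ((Ω ∪ T).filter (fun p => p.1 ∈ Set.range I ∨ p.2 ∈ Set.range J)).card :=
          Nat.pow_le_pow_left hD _
      _ ≤ (n ^ 3 * m) ^ (v + (T \ Ω).card) :=
          Nat.pow_le_pow_right (Nat.mul_pos (Nat.pow_pos (by omega)) (by omega)) hVc
  have h8 : ((Ω \ T).card : ℝ) * Real.log m ≤
      ((v : ℝ) + (T \ Ω).card) * (3 * Real.log n + Real.log m) := by
    have h9 : ((m : ℝ)) ^ (Ω \ T).card ≤ (((n : ℝ)) ^ 3 * m) ^ (v + (T \ Ω).card) := by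
      exact_mod_cast h7
    have hmR : (0 : ℝ) < m := by exact_mod_cast (by omega : 0 < m)
    have hnR : (0 : ℝ) < n := by exact_mod_cast (by omega : 0 < n)
    have h10 := Real.log_le_log (by positivity) h9
    rw [Real.log_pow, Real.log_pow, Real.log_mul (by positivity) (by positivity), Real.log_pow] at h10
    push_cast at h10
    exact h10
  have h11 : (Ω.card : ℝ) = (Ω \ T).card + (Ω ∩ T).card := by exact_mod_cast hWc.symm
  have h12 : ((T \ Ω).card : ℝ) + (Ω ∩ T).card ≤ s := by
    have : (T \ Ω).card + (Ω ∩ T).card ≤ s := by omega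
    exact_mod_cast this
  have h13 : (0 : ℝ) ≤ (Ω ∩ T).card := Nat.cast_nonneg _
  have h14 : Real.log m * Ω.card ≤ (3 * Real.log n + Real.log m) * ((v : ℝ) + s) := by
    calc Real.log m * Ω.card = ((Ω \ T).card : ℝ) * Real.log m + Real.log m * (Ω ∩ T).card := by
          rw [h11]; ring
      _ ≤ ((v : ℝ) + (T \ Ω).card) * (3 * Real.log n + Real.log m) +
          (3 * Real.log n + Real.log m) * (Ω ∩ T).card := by
          gcongr
          linarith
      _ = (3 * Real.log n + Real.log m) * ((v : ℝ) + ((T \ Ω).card + (Ω ∩ T).card)) := by ring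
      _ ≤ _ := by gcongr
  linarith

end Pool.Agent.W989.RG
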