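import Pool.Agent.W989.RG.Core2

/-! Project RG: counting the sparse matrices which are not rigid -/

set_option autoImplicit false

namespace Pool.Agent.W989.RG

open Finset MvPolynomial

/-- more polynomials of small degree than monomials are linearly dependent -/
theorem exists_dep_field {K : Type} [Field K] {V E : Type} [Fintype V] [Fintype E] (D : ℕ)
    (F : E → MvPolynomial V K) (hF : ∀ e, (F e).totalDegree ≤ D)
    (hcard : (D + 1) ^ (Fintype.card V) < Fintype.card E) :
    ∃ c : E → K, c ≠ 0 ∧ ∑ e, C (c e) * F e = 0 := by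
  classical
  let mon : (V → Fin (D + 1)) → (V →₀ ℕ) := fun t => Finsupp.equivFunOnFinite.symm (fun v => (t v : ℕ))
  let L : (E → K) →ₗ[K] ((V → Fin (D + 1)) → K) :=
    { toFun := fun c t => ∑ e, c e * (F e).coeff (mon t)
      map_add' := by
        intro a b
        funext t
        simp [add_mul, Finset.sum_add_distrib]
      map_smul' := by
        intro a b
        funext t
        simp [Finset.mul_sum, mul_assoc] }
  have hlt : Module.finrank K ((V → Fin (D + 1)) → K) < Module.finrank K (E → K) := by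
    rw [Module.finrank_fintype_fun_eq_card, Module.finrank_fintype_fun_eq_card]
    simpa using hcard
  have hker := LinearMap.ker_ne_bot_of_finrank_lt (f := L) hlt
  obtain ⟨c, hc, hc0⟩ := Submodule.exists_mem_ne_zero_of_ne_bot hker
  refine ⟨c, hc0, ?_⟩
  ext t
  rw [coeff_sum, coeff_zero]
  simp only [coeff_C_mul]
  by_cases ht : ∀ v, t v ≤ D
  · have h1 := congrFun (LinearMap.mem_ker.1 hc) (fun v => ⟨t v, Nat.lt_succ_of_le (ht v)⟩)
    have h2 : mon (fun v => ⟨t v, Nat.lt_succ_of_le (ht v)⟩) = t := by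
      ext v
      simp [mon]
    have h3 : (∑ e, c e * (F e).coeff (mon (fun v => ⟨t v, Nat.lt_succ_of_le (ht v)⟩))) = 0 := h1
    rw [h2] at h3
    exact h3
  · push Not at ht
    obtain ⟨v, hv⟩ := ht
    refine Finset.sum_eq_zero (fun e _ => ?_)
    rw [coeff_eq_zero_of_totalDegree_lt, mul_zero]
    refine lt_of_le_of_lt (hF e) (lt_of_lt_of_le hv ?_)
    have hvs : v ∈ t.support := by
      rw [Finsupp.mem_support_iff]
      omega
    exact Finset.single_le_sum (f := fun i => t i) (fun i _ => Nat.zero_le _) hvs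

theorem totalDegree_det_le' {K : Type} [Field K] {V : Type} {r : ℕ}
    (u : Matrix (Fin r) (Fin r) (MvPolynomial V K))
    (hu : ∀ k l, (u k l).totalDegree ≤ 1) : u.det.totalDegree ≤ r := by
  rw [Matrix.det_apply]
  refine totalDegree_finsetSum_le (fun σ _ => ?_)
  refine le_trans (totalDegree_smul_le _ _) ?_
  refine le_trans (totalDegree_finsetProd _ _) ?_
  calc ∑ i : Fin r, (u (σ i) i).totalDegree ≤ ∑ _i : Fin r, 1 := Finset.sum_le_sum (fun i _ => hu _ _)
    _ = r := by simp

theorem totalDegree_adj_le' {K : Type} [Field K] {V : Type} {r : ℕ}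
    (u : Matrix (Fin r) (Fin r) (MvPolynomial V K))
    (hu : ∀ k l, (u k l).totalDegree ≤ 1) (k l : Fin r) :
    (u.adjugate k l).totalDegree ≤ r - 1 := by
  obtain ⟨s, rfl⟩ : ∃ s, r = s + 1 := ⟨r - 1, by have := k.2; omega⟩
  rw [Matrix.adjugate_fin_succ_eq_det_submatrix]
  refine le_trans (totalDegree_mul _ _) ?_
  have h1 : ((-1 : MvPolynomial V K) ^ ((l : ℕ) + (k : ℕ))).totalDegree ≤ 0 := by
    refine le_trans (totalDegree_pow _ _) ?_
    simp
  have h2 : (Matrix.det (u.submatrix l.succAbove k.succAbove)).totalDegree ≤ s :=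
    totalDegree_det_le' _ (fun a b => hu _ _)
  simp only [Nat.add_sub_cancel]
  omega

/-- `R` is supported in `Ω ∪ T`, agrees with `a` on `Ω \ T` and is determined by the rows `I` and
the columns `J` -/
def Good {K : Type} [Field K] {n r : ℕ} (Ω T : Finset (Fin n × Fin n)) (I J : Fin r → Fin n)
    (R : Matrix (Fin n) (Fin n) K) (a : {p // p ∈ Ω \ T} → K) : Prop :=
  (∀ w, R w.1.1 w.1.2 = a w) ∧ (∀ p, p ∉ Ω → p ∉ T → R p.1 p.2 = 0) ∧
    (R.submatrix I J).det ≠ 0 ∧
    ∀ i j, R i j * (R.submatrix I J).det =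
      ∑ k, ∑ l, R i (J k) * (R.submatrix I J).adjugate k l * R (I l) j

/-- the positions which determine `R` -/
def vars {n r : ℕ} (Ω T : Finset (Fin n × Fin n)) (I J : Fin r → Fin n) :
    Finset (Fin n × Fin n) :=
  open Classical in (Ω ∪ T).filter (fun p => p.1 ∈ Set.range I ∨ p.2 ∈ Set.range J)

/-- the variables -/
noncomputable def xx {K : Type} [Field K] {n r : ℕ} (Ω T : Finset (Fin n × Fin n))
    (I J : Fin r → Fin n) (i j : Fin n) : MvPolynomial {p // p ∈ vars Ω T I J} K :=
  open Classical in if h : (i, j) ∈ vars Ω T I J then X ⟨(i, j), h⟩ else 0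

noncomputable def uu {K : Type} [Field K] {n r : ℕ} (Ω T : Finset (Fin n × Fin n))
    (I J : Fin r → Fin n) : Matrix (Fin r) (Fin r) (MvPolynomial {p // p ∈ vars Ω T I J} K) :=
  Matrix.of fun k l => xx Ω T I J (I k) (J l)

noncomputable def ff {K : Type} [Field K] {n r : ℕ} (Ω T : Finset (Fin n × Fin n))
    (I J : Fin r → Fin n) (p : Fin n × Fin n) : MvPolynomial {p // p ∈ vars Ω T I J} K :=
  ∑ k, ∑ l, xx Ω T I J p.1 (J k) * (uu Ω T I J).adjugate k l * xx Ω T I J (I l) p.2

theorem deg_xx {K : Type} [Field K] {n r : ℕ} (Ω T : Finset (Fin n × Fin n))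
    (I J : Fin r → Fin n) (i j : Fin n) : (xx (K := K) Ω T I J i j).totalDegree ≤ 1 := by
  classical
  unfold xx
  split_ifs with h
  · rw [totalDegree_X]
  · simp

theorem deg_uu {K : Type} [Field K] {n r : ℕ} (Ω T : Finset (Fin n × Fin n))
    (I J : Fin r → Fin n) : (uu (K := K) Ω T I J).det.totalDegree ≤ r :=
  totalDegree_det_le' _ (fun _ _ => deg_xx _ _ _ _ _ _)

theorem deg_ff {K : Type} [Field K] {n r : ℕ} (Ω T : Finset (Fin n × Fin n))
    (I J : Fin r → Fin n) (p : Fin n × Fin n) : (ff (K := K) Ω T I J p).totalDegree ≤ r + 1 := by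
  refine totalDegree_finsetSum_le (fun k _ => totalDegree_finsetSum_le (fun l _ => ?_))
  refine le_trans (totalDegree_mul _ _) ?_
  have h1 := totalDegree_mul (xx (K := K) Ω T I J p.1 (J k)) ((uu Ω T I J).adjugate k l)
  have h2 := deg_xx (K := K) Ω T I J p.1 (J k)
  have h3 := deg_xx (K := K) Ω T I J (I l) p.2
  have h4 := totalDegree_adj_le' (uu (K := K) Ω T I J) (fun _ _ => deg_xx _ _ _ _ _ _) k l
  have h5 : 0 < r := lt_of_le_of_lt (Nat.zero_le _) k.2
  omega

theorem eval_all {K : Type} [Field K] {n r : ℕ} (Ω T : Finset (Fin n × Fin n))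
    (I J : Fin r → Fin n) (R : Matrix (Fin n) (Fin n) K) (a : {p // p ∈ Ω \ T} → K)
    (hG : Good Ω T I J R a) :
    eval (fun v : {p // p ∈ vars Ω T I J} => R v.1.1 v.1.2) (uu Ω T I J).det =
      (R.submatrix I J).det ∧
    ∀ p, eval (fun v : {p // p ∈ vars Ω T I J} => R v.1.1 v.1.2) (ff Ω T I J p) =
      R p.1 p.2 * (R.submatrix I J).det := by
  classical
  obtain ⟨ha, h0, hdet, hcur⟩ := hG
  set ev : MvPolynomial {p // p ∈ vars Ω T I J} K →+* K :=
    eval (fun v : {p // p ∈ vars Ω T I J} => R v.1.1 v.1.2) with hev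
  have hx : ∀ i j, (i ∈ Set.range I ∨ j ∈ Set.range J) → ev (xx Ω T I J i j) = R i j := by
    intro i j hij
    unfold xx
    split_ifs with h
    · rw [hev, eval_X]
    · rw [map_zero]
      have h1 : (i, j) ∉ Ω ∪ T := by
        intro h2
        exact h (Finset.mem_filter.2 ⟨h2, hij⟩)
      rw [Finset.mem_union, not_or] at h1
      exact (h0 (i, j) h1.1 h1.2).symm
  have hu : ev.mapMatrix (uu Ω T I J) = R.submatrix I J := by
    ext k l
    simp only [RingHom.mapMatrix_apply, Matrix.map_apply, Matrix.submatrix_apply, uu, Matrix.of_apply]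
    exact hx _ _ (Or.inl ⟨k, rfl⟩)
  have hadj : ∀ k l, ev ((uu Ω T I J).adjugate k l) = (R.submatrix I J).adjugate k l := by
    intro k l
    rw [← hu, ← RingHom.map_adjugate]
    rfl
  refine ⟨by rw [RingHom.map_det, hu], fun p => ?_⟩
  rw [hcur p.1 p.2]
  simp only [ff, map_sum, map_mul]
  refine Finset.sum_congr rfl (fun k _ => Finset.sum_congr rfl (fun l _ => ?_))
  rw [hx _ _ (Or.inr ⟨k, rfl⟩), hx _ _ (Or.inl ⟨l, rfl⟩), hadj]

/-- the polynomial bound -/
theorem count_poly {K : Type} [Field K] {n r : ℕ} (Ω T : Finset (Fin n × Fin n))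
    (I J : Fin r → Fin n) (G : Finset K) (X : Finset ({p // p ∈ Ω \ T} → K))
    (hXG : ∀ a ∈ X, ∀ w, a w ∈ G)
    (hX : ∀ a ∈ X, ∃ R : Matrix (Fin n) (Fin n) K, Good Ω T I J R a) :
    X.card ≤ ((r + 1) * ((G.card - 1) * (Ω \ T).card) + 1) ^ (vars Ω T I J).card := by
  classical
  by_contra hcon
  push Not at hcon
  choose! R hR using hX
  let Λ : {a // a ∈ X} → MvPolynomial {p // p ∈ vars Ω T I J} K := fun a =>
    ∏ w : {p // p ∈ Ω \ T}, ∏ b ∈ G.erase (a.1 w), (ff Ω T I J w.1 - C b * (uu Ω T I J).det)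
  have hdeg : ∀ a, (Λ a).totalDegree ≤ (r + 1) * ((G.card - 1) * (Ω \ T).card) := by
    intro a
    refine le_trans (totalDegree_finsetProd _ _) ?_
    calc ∑ w : {p // p ∈ Ω \ T}, (∏ b ∈ G.erase (a.1 w),
          (ff Ω T I J w.1 - C b * (uu Ω T I J).det)).totalDegree
        ≤ ∑ _w : {p // p ∈ Ω \ T}, (G.card - 1) * (r + 1) := by
          refine Finset.sum_le_sum (fun w _ => ?_)
          refine le_trans (totalDegree_finsetProd _ _) ?_
          calc ∑ b ∈ G.erase (a.1 w), (ff Ω T I J w.1 - C b * (uu Ω T I J).det).totalDegree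
              ≤ ∑ _b ∈ G.erase (a.1 w), (r + 1) := by
                refine Finset.sum_le_sum (fun b _ => ?_)
                refine le_trans (totalDegree_sub _ _) (max_le (deg_ff _ _ _ _ _) ?_)
                refine le_trans (totalDegree_mul _ _) ?_
                rw [totalDegree_C, zero_add]
                exact le_trans (deg_uu _ _ _ _) (Nat.le_succ _)
            _ = (G.card - 1) * (r + 1) := by
                rw [Finset.sum_const, smul_eq_mul, Finset.card_erase_of_mem (hXG a.1 a.2 w)]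
      _ = (r + 1) * ((G.card - 1) * (Ω \ T).card) := by
          rw [Finset.sum_const, smul_eq_mul, Finset.card_univ, Fintype.card_coe]
          ring
  obtain ⟨c, hc0, hc⟩ := exists_dep_field ((r + 1) * ((G.card - 1) * (Ω \ T).card)) Λ hdeg
    (by rw [Fintype.card_coe, Fintype.card_coe]; exact hcon)
  apply hc0
  funext a'
  have h1 := congrArg (eval (fun v : {p // p ∈ vars Ω T I J} => R a'.1 v.1.1 v.1.2)) hc
  rw [map_zero, map_sum] at h1
  obtain ⟨hev1, hev2⟩ := eval_all Ω T I J (R a'.1) a'.1 (hR a'.1 a'.2)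
  have hdet := (hR a'.1 a'.2).2.2.1
  have hev3 : ∀ a : {a // a ∈ X}, eval (fun v : {p // p ∈ vars Ω T I J} => R a'.1 v.1.1 v.1.2) (Λ a) =
      ∏ w : {p // p ∈ Ω \ T}, ∏ b ∈ G.erase (a.1 w),
        ((a'.1 w - b) * ((R a'.1).submatrix I J).det) := by
    intro a
    simp only [Λ, map_prod, map_sub, map_mul, eval_C, hev1, hev2]
    refine Finset.prod_congr rfl (fun w _ => Finset.prod_congr rfl (fun b _ => ?_))
    rw [(hR a'.1 a'.2).1 w]
    ring
  rw [Finset.sum_eq_single a'] at h1
  · rw [map_mul, eval_C, hev3] at h1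
    refine (mul_eq_zero.1 h1).resolve_right ?_
    refine Finset.prod_ne_zero_iff.2 (fun w _ => Finset.prod_ne_zero_iff.2 (fun b hb => ?_))
    refine mul_ne_zero (sub_ne_zero.2 ?_) hdet
    exact (Finset.ne_of_mem_erase hb).symm
  · intro a _ hne
    rw [map_mul, hev3]
    have h2 : ∃ w, a'.1 w ≠ a.1 w := by
      by_contra h3
      push Not at h3
      exact hne (Subtype.ext (funext fun w => (h3 w).symm))
    obtain ⟨w, hw⟩ := h2
    rw [Finset.prod_eq_zero (Finset.mem_univ w), mul_zero]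
    refine Finset.prod_eq_zero (Finset.mem_erase.2 ⟨hw, hXG a'.1 a'.2 w⟩) ?_
    rw [sub_self, zero_mul]
  · intro h
    exact absurd (Finset.mem_univ _) h

/-- the bound for finite fields -/
theorem count_finite {K : Type} [Field K] [Fintype K] {n r : ℕ} (Ω T : Finset (Fin n × Fin n))
    (I J : Fin r → Fin n) (X : Finset ({p // p ∈ Ω \ T} → K))
    (hX : ∀ a ∈ X, ∃ R : Matrix (Fin n) (Fin n) K, Good Ω T I J R a) :
    X.card ≤ (Fintype.card K) ^ (vars Ω T I J).card := by
  classical
  choose! R hR using hX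
  have h1 : X.card ≤ Fintype.card ({p // p ∈ vars Ω T I J} → K) := by
    rw [← Finset.card_univ]
    refine Finset.card_le_card_of_injOn (fun a v => R a v.1.1 v.1.2) (fun _ _ => Finset.mem_coe.2 (Finset.mem_univ _)) ?_
    intro a ha a' ha' haa
    have ha := Finset.mem_coe.1 ha
    have ha' := Finset.mem_coe.1 ha'
    funext w
    obtain ⟨e1, e2⟩ := eval_all Ω T I J (R a) a (hR a ha)
    obtain ⟨e1', e2'⟩ := eval_all Ω T I J (R a') a' (hR a' ha')
    have haa' : (fun v : {p // p ∈ vars Ω T I J} => R a v.1.1 v.1.2) =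
        (fun v : {p // p ∈ vars Ω T I J} => R a' v.1.1 v.1.2) := haa
    rw [← haa'] at e1' e2'
    have h3 := e2 w.1
    have h4 := e2' w.1
    rw [← (hR a ha).1 w, ← (hR a' ha').1 w]
    have h5 : ((R a).submatrix I J).det = ((R a').submatrix I J).det := e1.symm.trans e1'
    have h6 : R a w.1.1 w.1.2 * ((R a).submatrix I J).det =
        R a' w.1.1 w.1.2 * ((R a).submatrix I J).det := by
      rw [← h3, h5, ← h4]
    exact mul_right_cancel₀ (hR a ha).2.2.1 h6
  rwa [Fintype.card_fun, Fintype.card_coe] at h1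

end Pool.Agent.W989.RG
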