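import Mathlib

/-! Project RG (MP_0775d3_lc): sparse rigid matrices. Definitions and statements of the parts. -/

set_option autoImplicit false

namespace Pool.Agent.W989.RG

open Finset

/-- the positions of the cyclic band of width `d` -/
def band (n d : ℕ) : Finset (Fin n × Fin n) :=
  univ.filter (fun p => ((p.2 : ℕ) + n - (p.1 : ℕ)) % n < d)

/-- TI: products of `m`-th roots of different primes are linearly independent over the rationals -/
def S_TI : Prop :=
  ∀ (W : Type) [Fintype W] [DecidableEq W] (m : ℕ) (pr : W → ℕ) (c : (W → Fin m) → ℚ),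
    (∀ w, (pr w).Prime) → Function.Injective pr →
    ∑ e : W → Fin m, (c e : ℝ) * ∏ w, ((pr w : ℝ) ^ (1 / (m : ℝ))) ^ ((e w : ℕ)) = 0 →
    ∀ e, c e = 0

/-- CUR: a matrix is determined by the rows and the columns through a maximal invertible minor -/
def S_CUR : Prop :=
  ∀ (K : Type) [Field K] (n : ℕ) (R : Matrix (Fin n) (Fin n) K),
    ∃ (I J : Fin R.rank → Fin n),
      Function.Injective I ∧ Function.Injective J ∧
      (R.submatrix I J).det ≠ 0 ∧
      ∀ i j, R i j * (R.submatrix I J).det =
        ∑ k, ∑ l, R i (J k) * (R.submatrix I J).adjugate k l * R (I l) j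

/-- CNT: counting in the band -/
def S_CNT : Prop :=
  ∀ (n d : ℕ), d ≤ n →
    (band n d).card = n * d ∧
    ∀ (r s : ℕ) (I J : Fin r → Fin n) (T : Finset (Fin n × Fin n)), T.card ≤ s →
      ((band n d ∪ T).filter (fun p => p.1 ∈ Set.range I ∨ p.2 ∈ Set.range J)).card ≤
        2 * r * d + s

end Pool.Agent.W989.RG
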