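import Pool.Agent.W989.RG.Rand

/-! Project RG: counting the sparse matrices which are not rigid: the union bound -/

set_option autoImplicit false

namespace Pool.Agent.W989.RG

open Finset

/-- the matrices with entries in `G` on `Ω` and `0` elsewhere -/
noncomputable def mats {K : Type} [Field K] {n : ℕ} (G : Finset K) (Ω : Finset (Fin n × Fin n)) :
    Finset (Fin n × Fin n → K) :=
  open Classical in Fintype.piFinset (fun p => if p ∈ Ω then G else {0})

theorem mem_mats {K : Type} [Field K] {n : ℕ} (G : Finset K) (Ω : Finset (Fin n × Fin n))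
    (f : Fin n × Fin n → K) :
    f ∈ mats G Ω ↔ (∀ p ∈ Ω, f p ∈ G) ∧ ∀ p, p ∉ Ω → f p = 0 := by
  classical
  unfold mats
  rw [Fintype.mem_piFinset]
  constructor
  · intro h
    refine ⟨fun p hp => ?_, fun p hp => ?_⟩
    · have := h p
      rwa [if_pos hp] at this
    · have := h p
      rwa [if_neg hp, Finset.mem_singleton] at this
  · rintro ⟨h1, h2⟩ p
    split_ifs with hp
    · exact h1 p hp
    · rw [Finset.mem_singleton]
      exact h2 p hp

theorem card_mats {K : Type} [Field K] {n : ℕ} (G : Finset K) (Ω : Finset (Fin n × Fin n)) :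
    (mats G Ω).card = G.card ^ Ω.card := by
  classical
  unfold mats
  rw [Fintype.card_piFinset]
  have h : ∀ p : Fin n × Fin n, (if p ∈ Ω then G else {0}).card = if p ∈ Ω then G.card else 1 := by
    intro p
    split_ifs <;> simp
  rw [Finset.prod_congr rfl (fun p _ => h p)]
  rw [Finset.prod_ite_mem, Finset.univ_inter, Finset.prod_const]

/-- the matrices belonging to one choice of rows, columns and changed positions -/
noncomputable def cls {K : Type} [Field K] {n ρ : ℕ} (G : Finset K) (Ω T : Finset (Fin n × Fin n))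
    (I J : Fin ρ → Fin n) : Finset (Fin n × Fin n → K) :=
  open Classical in (mats G Ω).filter
    (fun f => ∃ R : Matrix (Fin n) (Fin n) K, Good Ω T I J R (fun w => f w.1))

theorem card_cls {K : Type} [Field K] {n ρ : ℕ} (G : Finset K) (Ω T : Finset (Fin n × Fin n))
    (I J : Fin ρ → Fin n) (B v : ℕ) (hB1 : 1 ≤ B) (hB : G.card ≤ B)
    (hX : ∀ X : Finset ({p // p ∈ Ω \ T} → K), (∀ a ∈ X, ∀ w, a w ∈ G) →
      (∀ a ∈ X, ∃ R : Matrix (Fin n) (Fin n) K, Good Ω T I J R a) →
      X.card ≤ B ^ (vars Ω T I J).card)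
    (hv : (vars Ω T I J).card ≤ v + (T \ Ω).card) :
    (cls G Ω T I J).card ≤ B ^ (v + T.card) := by
  classical
  have h1 : (cls G Ω T I J).card ≤
      (Fintype.piFinset (fun _ : {p // p ∈ Ω ∩ T} => G) ×ˢ
        (cls G Ω T I J).image (fun f (w : {p // p ∈ Ω \ T}) => f w.1)).card := by
    refine Finset.card_le_card_of_injOn
      (fun f => (fun w : {p // p ∈ Ω ∩ T} => f w.1, fun w : {p // p ∈ Ω \ T} => f w.1)) ?_ ?_
    · intro f hf
      have hf := Finset.mem_coe.1 hf
      refine Finset.mem_coe.2 (Finset.mem_product.2 ⟨?_, Finset.mem_image_of_mem _ hf⟩)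
      rw [Fintype.mem_piFinset]
      intro w
      exact ((mem_mats G Ω f).1 (Finset.mem_filter.1 hf).1).1 _ (Finset.mem_inter.1 w.2).1
    · intro f hf f' hf' hff
      have hf := ((mem_mats G Ω f).1 (Finset.mem_filter.1 (Finset.mem_coe.1 hf)).1)
      have hf' := ((mem_mats G Ω f').1 (Finset.mem_filter.1 (Finset.mem_coe.1 hf')).1)
      have e1 := congrArg Prod.fst hff
      have e2 := congrArg Prod.snd hff
      funext p
      by_cases hp : p ∈ Ω
      · by_cases hpT : p ∈ T
        · exact congrFun e1 ⟨p, Finset.mem_inter.2 ⟨hp, hpT⟩⟩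
        · exact congrFun e2 ⟨p, Finset.mem_sdiff.2 ⟨hp, hpT⟩⟩
      · rw [hf.2 p hp, hf'.2 p hp]
  rw [Finset.card_product, Fintype.card_piFinset, Finset.prod_const, Finset.card_univ,
    Fintype.card_coe] at h1
  have h2 : ((cls G Ω T I J).image (fun f (w : {p // p ∈ Ω \ T}) => f w.1)).card ≤
      B ^ (vars Ω T I J).card := by
    refine hX _ ?_ ?_
    · intro a ha w
      obtain ⟨f, hf, rfl⟩ := Finset.mem_image.1 ha
      exact ((mem_mats G Ω f).1 (Finset.mem_filter.1 hf).1).1 _ (Finset.mem_sdiff.1 w.2).1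
    · intro a ha
      obtain ⟨f, hf, rfl⟩ := Finset.mem_image.1 ha
      exact (Finset.mem_filter.1 hf).2
  have h3 : (T \ Ω).card + (T ∩ Ω).card = T.card := Finset.card_sdiff_add_card_inter T Ω
  rw [Finset.inter_comm T Ω] at h3
  calc (cls G Ω T I J).card ≤ _ := h1
    _ ≤ B ^ (Ω ∩ T).card * B ^ (vars Ω T I J).card := by
        gcongr
    _ = B ^ ((Ω ∩ T).card + (vars Ω T I J).card) := by rw [pow_add]
    _ ≤ B ^ (v + T.card) := Nat.pow_le_pow_right hB1 (by omega)

theorem card_vars {n ρ : ℕ} (Ω T : Finset (Fin n × Fin n)) (I J : Fin ρ → Fin n) (r v : ℕ)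
    (hρ : ρ ≤ r)
    (hv : ∀ I J : Finset (Fin n), I.card ≤ r → J.card ≤ r →
      (Ω.filter (fun p => p.1 ∈ I ∨ p.2 ∈ J)).card ≤ v) :
    (vars Ω T I J).card ≤ v + (T \ Ω).card := by
  classical
  have hsub : vars Ω T I J ⊆
      Ω.filter (fun p => p.1 ∈ univ.image I ∨ p.2 ∈ univ.image J) ∪ (T \ Ω) := by
    intro p hp
    unfold vars at hp
    rw [Finset.mem_filter, Finset.mem_union] at hp
    rw [Finset.mem_union, Finset.mem_filter, Finset.mem_sdiff]
    by_cases hΩ : p ∈ Ω
    · left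
      refine ⟨hΩ, ?_⟩
      rcases hp.2 with ⟨k, hk⟩ | ⟨k, hk⟩
      · left
        exact Finset.mem_image.2 ⟨k, Finset.mem_univ _, hk⟩
      · right
        exact Finset.mem_image.2 ⟨k, Finset.mem_univ _, hk⟩
    · right
      exact ⟨hp.1.resolve_left hΩ, hΩ⟩
  refine le_trans (Finset.card_le_card hsub) (le_trans (Finset.card_union_le _ _) ?_)
  refine Nat.add_le_add_right (hv _ _ ?_ ?_) _
  · refine le_trans Finset.card_image_le ?_
    rw [Finset.card_univ, Fintype.card_fin]
    exact hρ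
  · refine le_trans Finset.card_image_le ?_
    rw [Finset.card_univ, Fintype.card_fin]
    exact hρ

/-- the matrix with the entries `f` is the sum of a matrix of rank at most `r` and a matrix with
at most `s` nonzero entries -/
def NR {K : Type} [Field K] {n : ℕ} (r s : ℕ) (f : Fin n × Fin n → K) : Prop :=
  ∃ R S : Matrix (Fin n) (Fin n) K, Matrix.of (fun i j => f (i, j)) = R + S ∧ R.rank ≤ r ∧
    {p : Fin n × Fin n | S p.1 p.2 ≠ 0}.ncard ≤ s

theorem count_union (hCUR : S_CUR) {K : Type} [Field K] {n r s v B : ℕ} (hr : r + 1 ≤ n)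
    (hs : s ≤ n * n) (G : Finset K) (Ω : Finset (Fin n × Fin n))
    (hB1 : 1 ≤ B) (hB : G.card ≤ B)
    (hX : ∀ ρ : ℕ, ρ ≤ r → ∀ (T : Finset (Fin n × Fin n)) (I J : Fin ρ → Fin n)
      (X : Finset ({p // p ∈ Ω \ T} → K)), (∀ a ∈ X, ∀ w, a w ∈ G) →
      (∀ a ∈ X, ∃ R : Matrix (Fin n) (Fin n) K, Good Ω T I J R a) →
      X.card ≤ B ^ (vars Ω T I J).card)
    (hv : ∀ I J : Finset (Fin n), I.card ≤ r → J.card ≤ r →
      (Ω.filter (fun p => p.1 ∈ I ∨ p.2 ∈ J)).card ≤ v)
    (N : Finset (Fin n × Fin n → K)) (hN : ∀ f ∈ N, f ∈ mats G Ω ∧ NR r s f) :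
    N.card ≤ n ^ (2 * r + 1 + 2 * s) * B ^ (v + s) := by
  classical
  have hsub : N ⊆ (Finset.range (r + 1)).biUnion (fun ρ =>
      ((univ : Finset (Fin ρ → Fin n)) ×ˢ (univ : Finset (Fin ρ → Fin n)) ×ˢ
        (powersetCard s (univ : Finset (Fin n × Fin n)))).biUnion
          (fun x => cls G Ω x.2.2 x.1 x.2.1)) := by
    intro f hf
    obtain ⟨hfm, R, S, hRS, hrk, hsp⟩ := hN f hf
    have hsp' : (univ.filter (fun p : Fin n × Fin n => S p.1 p.2 ≠ 0)).card ≤ s := by
      refine le_trans (le_of_eq ?_) hsp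
      rw [Set.ncard_eq_toFinset_card']
      congr 1
      ext w
      simp
    obtain ⟨T, hT1, hT2⟩ := Finset.exists_superset_card_eq hsp' (by simpa using hs)
    obtain ⟨I, J, _, _, hdet, hcur⟩ := hCUR K n R
    rw [Finset.mem_biUnion]
    refine ⟨R.rank, Finset.mem_range.2 (by omega), ?_⟩
    rw [Finset.mem_biUnion]
    refine ⟨(I, J, T), ?_, ?_⟩
    · rw [Finset.mem_product, Finset.mem_product]
      exact ⟨Finset.mem_univ _, Finset.mem_univ _, Finset.mem_powersetCard.2 ⟨Finset.subset_univ _, hT2⟩⟩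
    · refine Finset.mem_filter.2 ⟨hfm, R, ?_, ?_, hdet, hcur⟩
      · intro w
        have h1 : S w.1.1 w.1.2 = 0 := by
          by_contra h0
          exact (Finset.mem_sdiff.1 w.2).2 (hT1 (Finset.mem_filter.2 ⟨Finset.mem_univ _, h0⟩))
        have h2 := congrFun (congrFun hRS w.1.1) w.1.2
        rw [Matrix.of_apply, Matrix.add_apply, h1, add_zero] at h2
        exact h2.symm
      · intro p hp hpT
        have h1 : S p.1 p.2 = 0 := by
          by_contra h0
          exact hpT (hT1 (Finset.mem_filter.2 ⟨Finset.mem_univ _, h0⟩))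
        have h2 := congrFun (congrFun hRS p.1) p.2
        rw [Matrix.of_apply, Matrix.add_apply, h1, add_zero] at h2
        rw [← h2]
        exact ((mem_mats G Ω f).1 hfm).2 p hp
  refine le_trans (Finset.card_le_card hsub) ?_
  have hn1 : 1 ≤ n := by omega
  have hinner : ∀ ρ ∈ Finset.range (r + 1),
      (((univ : Finset (Fin ρ → Fin n)) ×ˢ (univ : Finset (Fin ρ → Fin n)) ×ˢ
        (powersetCard s (univ : Finset (Fin n × Fin n)))).biUnion
          (fun x => cls G Ω x.2.2 x.1 x.2.1)).card ≤ n ^ (2 * r + 2 * s) * B ^ (v + s) := by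
    intro ρ hρ
    have hρr : ρ ≤ r := by have := Finset.mem_range.1 hρ; omega
    refine le_trans (Finset.card_biUnion_le_card_mul _ _ (B ^ (v + s)) ?_) ?_
    · intro x hx
      rw [Finset.mem_product, Finset.mem_product] at hx
      have hT := (Finset.mem_powersetCard.1 hx.2.2).2
      have h3 := card_cls G Ω x.2.2 x.1 x.2.1 B v hB1 hB (hX ρ hρr _ _ _)
        (card_vars Ω _ _ _ r v hρr hv)
      rwa [hT] at h3
    · refine Nat.mul_le_mul_right _ ?_
      rw [Finset.card_product, Finset.card_product, Finset.card_univ, Fintype.card_fun,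
        Fintype.card_fin, Fintype.card_fin, Finset.card_powersetCard, Finset.card_univ,
        Fintype.card_prod, Fintype.card_fin]
      have h4 : n ^ ρ ≤ n ^ r := Nat.pow_le_pow_right hn1 hρr
      calc n ^ ρ * (n ^ ρ * (n * n).choose s) ≤ n ^ r * (n ^ r * (n * n) ^ s) :=
            Nat.mul_le_mul h4 (Nat.mul_le_mul h4 (Nat.choose_le_pow _ _))
        _ = n ^ (2 * r + 2 * s) := by
            rw [← pow_two n, ← pow_mul, ← pow_add, ← pow_add]
            ring_nf
  calc _ ≤ (Finset.range (r + 1)).card * (n ^ (2 * r + 2 * s) * B ^ (v + s)) :=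
        Finset.card_biUnion_le_card_mul _ _ _ hinner
    _ ≤ n * (n ^ (2 * r + 2 * s) * B ^ (v + s)) := by
        rw [Finset.card_range]
        exact Nat.mul_le_mul_right _ hr
    _ = n ^ (2 * r + 1 + 2 * s) * B ^ (v + s) := by
        rw [← mul_assoc, ← pow_succ']
        ring_nf

end Pool.Agent.W989.RG
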